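import Pool.Agent.Helper13.IH.Geo

/-!
# Derived invariance of Hodge numbers: any linear combination of interior Hodge numbers decides

As in the library's `MiddleHodgeNumber`, `V` is the commutative monoid of the isomorphism classes of smooth
projective complex varieties (product of varieties), `D.hodge X` the Hodge polynomial
`∑ h^{p,q}(X) x^p y^q`, `D.h X p q` the Hodge number, `D.deq` derived equivalence, and `IsHodge` are the
standard properties (Künneth formula, Hodge symmetry, Serre duality, `D(X × Z) ≃ D(Y × Z)` and
`dim X = dim Y` if `D(X) ≃ D(Y)`). `IsGeo` adds that Hodge numbers are not negative and that `curve g` is a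
curve of genus `g` (`h^{1,0} = g`) and `plane` is `ℙ²`. The class `𝒞` of varieties is stable under products
with these; for instance the class of all varieties.

A linear combination `F(X) = ∑ c(a,b) h^{a,b}(X)` with integral coefficients (`comb`) is considered in
dimension `d`. It is interior, with margin `n` (`InBox n d c`), if `n ≤ a, b ≤ d - n` whenever
`c(a,b) ≠ 0`, and nontrivial (`Nontriv`) if it is not zero for all varieties of dimension `d`. For instance
`F = h^{a,b}`. Let `b(X)` be the sum of the Betti numbers of `X` (`betti`). `Approx` says that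
`F(X) - F(Y) = o(b(X))` for derived equivalent `X, Y` of dimension `d`, `X` in `𝒞`.

**Theorem.** (1) Let `ℓ` be `0` or an odd prime. If an interior combination with margin `n` in dimension
`d` is a derived invariant modulo `ℓ`, and nontrivial modulo `ℓ`, then all the Hodge numbers of the
varieties of dimension at most `n` are derived invariants modulo `ℓ`.

(2) If an interior combination with margin `n + 1` in dimension `d` is nontrivial and a derived invariant up
to `o(b)`, then all the Hodge numbers of the varieties of dimension at most `n` are derived invariants.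
(So if Q1 fails in dimension `n` then no nontrivial linear combination of the numbers `h^{a,b}`,
`n < a, b < d - n`, of `d`-dimensional varieties is a derived invariant, not even up to `o(b)`.)

(3) The following are equivalent: all Hodge numbers of the varieties in `𝒞` are derived invariants (Q1 for
the class of all varieties); for each `n` one Hodge number `h^{a,b}` in one dimension `d`, with
`n < a, b < d - n`, is a derived invariant up to `o(b)`; for each `n` this is true for one nontrivial linear
combination of these Hodge numbers in one dimension `d`.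

The sums `∑_{p - q = i} h^{p,q}` which are known to be invariant contain the numbers `h^{i,0}` or `h^{0,-i}`
at the boundary.

The library has the case of the middle Hodge numbers `F = h^{m,m}`, `d = 2 m`, with exact equality.
Proof. The functionals `P ↦ F(P Q)`, `Q` the Hodge polynomial of a product of curves and planes, span all
the functionals `P ↦ F(P Q)` for Laurent polynomials `Q` with Hodge symmetry and Serre duality. If
`P = ∑ (h^{p,q}(X) - h^{p,q}(Y)) x^p y^q` is not zero, then the last place (for the lexicographic order) of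
the symmetrised combination `F` and the first place of `P` give a monomial such that only one term of
`F(P Q)`, `Q` the symmetrised monomial, is not zero; here the margin is used. For (2) one factor is a curve
whose genus tends to infinity.
-/

set_option autoImplicit false

open Pool.Agent.Q148.HN Pool.Agent.Helper13.IH

namespace Pool.Agent.Results.MP_b4fe5e_ag.InteriorCombinations

/-- **Any linear combination of interior Hodge numbers decides.** See the explanations above. -/
theorem result {V : Type} [CommMonoid V] {D : HodgeData V} {curve : ℕ → V} {plane : V}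
    (h : IsGeo D curve plane) (𝒞 : Set V) (hc : ∀ g, StableMul 𝒞 (curve g))
    (hp : StableMul 𝒞 plane) :
    (∀ ℓ : ℕ, (ℓ = 0 ∨ ℓ.Prime ∧ ℓ ≠ 2) → ∀ (n d : ℕ) (c : (ℤ × ℤ) →₀ ℤ), InBox n d c →
      Nontriv D ℓ d c → Invar D ℓ 𝒞 d c →
        ∀ X ∈ 𝒞, ∀ Y, D.deq X Y → D.dim X ≤ n → ∀ p q : ℤ, D.h X p q ≡ D.h Y p q [ZMOD ℓ]) ∧
    (∀ (n d : ℕ) (c : (ℤ × ℤ) →₀ ℤ), InBox (n + 1) d c → Nontriv D 0 d c → Approx D 𝒞 d c →
      ∀ X ∈ 𝒞, ∀ Y, D.deq X Y → D.dim X ≤ n → ∀ p q : ℤ, D.h X p q = D.h Y p q) ∧
    List.TFAE [All D 𝒞,
      ∀ n : ℕ, ∃ d a b : ℕ, n < a ∧ a + n < d ∧ n < b ∧ b + n < d ∧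
        Approx D 𝒞 d (Finsupp.single ((a : ℤ), (b : ℤ)) 1),
      ∀ n : ℕ, ∃ (d : ℕ) (c : (ℤ × ℤ) →₀ ℤ), InBox (n + 1) d c ∧ Nontriv D 0 d c ∧
        Approx D 𝒞 d c] := by
  have h2 : ∀ (n d : ℕ) (c : (ℤ × ℤ) →₀ ℤ), InBox (n + 1) d c → Nontriv D 0 d c → Approx D 𝒞 d c →
      ∀ X ∈ 𝒞, ∀ Y, D.deq X Y → D.dim X ≤ n → ∀ p q : ℤ, D.h X p q = D.h Y p q :=
    fun n d c box nt ha => approx_all h hc hp box nt ha
  refine ⟨fun ℓ hℓ n d c box nt hi => exact_all h hc hp hℓ box nt hi, h2, ?_⟩
  tfae_have 1 → 2 := by
    intro hA n
    refine ⟨2 * n + 2, n + 1, n + 1, by omega, by omega, by omega, by omega, fun ε hε =>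
      ⟨0, fun X hX Y hXY _ => ?_⟩⟩
    have e1 : comb D (Finsupp.single (((n + 1 : ℕ) : ℤ), ((n + 1 : ℕ) : ℤ)) 1) X =
        comb D (Finsupp.single (((n + 1 : ℕ) : ℤ), ((n + 1 : ℕ) : ℤ)) 1) Y := by
      unfold comb
      refine Finsupp.sum_congr fun x _ => ?_
      rw [hA X hX Y hXY]
    rw [e1, sub_self, Int.cast_zero, abs_zero, add_zero]
    exact mul_nonneg hε.le (by exact_mod_cast betti_nonneg h X)
  tfae_have 2 → 3 := by
    intro hB n
    obtain ⟨d, a, b, h3, h4, h5, h6, h7⟩ := hB n
    refine ⟨d, Finsupp.single ((a : ℤ), (b : ℤ)) 1, ?_, ?_, h7⟩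
    · intro x hx
      have h8 := Finsupp.support_single_subset hx
      rw [Finset.mem_singleton] at h8
      subst h8
      simp only
      omega
    · exact nontriv_single h (by omega) (by omega) (by omega) (by omega) (by omega)
  tfae_have 3 → 1 := by
    intro hC X hX Y hXY p q
    obtain ⟨d, c, box, nt, ha⟩ := hC (D.dim X)
    exact h2 (D.dim X) d c box nt ha X hX Y hXY le_rfl p q
  tfae_finish

end Pool.Agent.Results.MP_b4fe5e_ag.InteriorCombinations
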