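import Pool.Agent.Helper13.IH.Geo2

/-!
# Derived invariance of Hodge numbers: any nonconstant polynomial in interior Hodge numbers decides

As in the library's `MiddleHodgeNumber`, `V` is the commutative monoid of the isomorphism classes of smooth
projective complex varieties (product of varieties), `D.hodge X` the Hodge polynomial
`∑ h^{p,q}(X) x^p y^q`, `D.h X p q` the Hodge number, `D.deq` derived equivalence, and `IsHodge` are the
standard properties (Künneth formula, Hodge symmetry, Serre duality, `D(X × Z) ≃ D(Y × Z)` and
`dim X = dim Y` if `D(X) ≃ D(Y)`). Moreover `h^{0,0} = 1`, and `PaulsenSchreieder` is the theorem of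
M. Paulsen and S. Schreieder (The construction problem for Hodge numbers modulo an integer, 2019): for all
`N` and `m ≥ 1` every table of integers `(h^{p,q})`, `0 ≤ p, q ≤ N`, with Hodge symmetry and Serre duality
and with `h^{0,0} = 1` is congruent modulo `m` to the Hodge numbers of a variety of dimension `N`.

Because of the symmetries every Hodge number of a variety of dimension `d` is one of the numbers `h^{a,b}`
with `b ≤ a` and `d ≤ a + b`. Such a number is interior, with margin `n`, if `n < b` and `a < d - n`
(`Om n d (a, b)`). `polyVal D f X` is the value of the polynomial `f` with integral coefficients at the Hodge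
numbers of `X`.

**Theorem.** (1) Let `X` and `Y` be varieties of the same dimension, at most `n`, and let `f` be a
nonconstant polynomial in the interior Hodge numbers `h^{a,b}`, with margin `n`, of varieties of dimension
`d`. If `f(X × Z) = f(Y × Z)` for all `Z` of dimension `d - dim X` then `X` and `Y` have the same Hodge
numbers.

(2) If such a polynomial `f` is a derived invariant of the varieties of dimension `d`, then all Hodge numbers
of the varieties of dimension at most `n` are derived invariants. So if Q1 fails in dimension `n` then in
every dimension `d` only the constant polynomials in the numbers `h^{a,b}`, `n < b ≤ a < d - n`,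
`a + b ≥ d`, are derived invariants.

(3) Q1 is true if and only if for each `n` there are a `d` and a nonconstant polynomial in the interior
Hodge numbers, with margin `n`, of varieties of dimension `d` which is a derived invariant.

Proof. By the theorem of Paulsen and Schreieder `f(H_X A) = f(H_Y A)` for all tables `A` with the symmetries
in dimension `d - dim X`, where `H_X` is the Hodge polynomial (only the interior coefficients of the product
are used, and they do not depend on the entry of `A` at `(0,0)`). If `H_X ≠ H_Y`, then the linear part of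
`f` is zero: this is the linear case (`core_sym`; `InteriorCombinations`). Let `w` be the largest variable
of `f` for the lexicographic order. The derivative of the identity in the direction of the symmetrised
monomial of `w` shows that `∂f/∂w` has the same property, because the matrices of the multiplications with
`H_X` and `H_Y` are triangular with the same diagonal. By induction `∂f/∂w` is constant, so it is zero, a
contradiction.
-/

set_option autoImplicit false

open Pool.Agent.Q148.HN Pool.Agent.Helper13.IH

namespace Pool.Agent.Results.MP_b4fe5e_ag.InteriorPolynomials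

/-- `f` is a nonconstant polynomial in the interior Hodge numbers, with margin `n`, of varieties of
dimension `d`. -/
def Interior (n d : ℕ) (f : MvPolynomial (ℤ × ℤ) ℤ) : Prop :=
  (∀ w ∈ f.vars, Om n d w) ∧ ∀ z : ℤ, f ≠ MvPolynomial.C z

/-- `f` is a derived invariant of the varieties of dimension `d`. -/
def IsInvariant {V : Type} (D : HodgeData V) (d : ℕ) (f : MvPolynomial (ℤ × ℤ) ℤ) : Prop :=
  ∀ X Y, D.deq X Y → D.dim X = d → polyVal D f X = polyVal D f Y

/-- **Any nonconstant polynomial in interior Hodge numbers decides.** See the explanations above. -/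
theorem result {V : Type} [CommMonoid V] {D : HodgeData V} (h : IsHodge D)
    (h00 : ∀ X, D.h X 0 0 = 1) (ps : PaulsenSchreieder D) :
    (∀ (X Y : V) (n d : ℕ) (f : MvPolynomial (ℤ × ℤ) ℤ), D.dim X = D.dim Y → D.dim X ≤ n →
      Interior n d f →
      (∀ Z, D.dim X + D.dim Z = d → polyVal D f (X * Z) = polyVal D f (Y * Z)) →
        ∀ p q : ℤ, D.h X p q = D.h Y p q) ∧
    (∀ (n d : ℕ) (f : MvPolynomial (ℤ × ℤ) ℤ), Interior n d f → IsInvariant D d f →
      ∀ X Y, D.deq X Y → D.dim X ≤ n → ∀ p q : ℤ, D.h X p q = D.h Y p q) ∧
    ((∀ X Y, D.deq X Y → ∀ p q : ℤ, D.h X p q = D.h Y p q) ↔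
      ∀ n : ℕ, ∃ (d : ℕ) (f : MvPolynomial (ℤ × ℤ) ℤ), Interior n d f ∧ IsInvariant D d f) := by
  have h1 : ∀ (X Y : V) (n d : ℕ) (f : MvPolynomial (ℤ × ℤ) ℤ), D.dim X = D.dim Y → D.dim X ≤ n →
      Interior n d f →
      (∀ Z, D.dim X + D.dim Z = d → polyVal D f (X * Z) = polyVal D f (Y * Z)) →
        ∀ p q : ℤ, D.h X p q = D.h Y p q :=
    fun X Y n d f hd hn hf hZ => poly_all h h00 ps hd hn hf.1 hf.2 hZ
  have h2 : ∀ (n d : ℕ) (f : MvPolynomial (ℤ × ℤ) ℤ), Interior n d f → IsInvariant D d f →
      ∀ X Y, D.deq X Y → D.dim X ≤ n → ∀ p q : ℤ, D.h X p q = D.h Y p q :=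
    fun n d f hf hi X Y hXY hn => h1 X Y n d f (h.deq_dim X Y hXY) hn hf fun Z hZ =>
      hi _ _ (h.deq_mul X Y Z hXY) (by rw [h.dim_mul, hZ])
  refine ⟨h1, h2, fun hA n => ?_, fun hB X Y hXY => ?_⟩
  · refine ⟨2 * n + 2, MvPolynomial.X ((n : ℤ) + 1, (n : ℤ) + 1), ⟨fun w hw => ?_, fun z hz => ?_⟩,
      fun X Y hXY _ => ?_⟩
    · rw [MvPolynomial.vars_X, Finset.mem_singleton] at hw
      subst hw
      unfold Om
      simp only
      push_cast
      omega
    · have h3 := congrArg MvPolynomial.vars hz
      rw [MvPolynomial.vars_X, MvPolynomial.vars_C] at h3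
      exact Finset.singleton_ne_empty _ h3
    · unfold polyVal
      rw [MvPolynomial.eval_X, MvPolynomial.eval_X]
      exact hA X Y hXY _ _
  · obtain ⟨d, f, hf, hi⟩ := hB (D.dim X)
    exact h2 (D.dim X) d f hf hi X Y hXY le_rfl

end Pool.Agent.Results.MP_b4fe5e_ag.InteriorPolynomials
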