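import Pool.Agent.Helper30.DI.Fac

/-!
# Derived invariance of Hodge numbers: varieties with abelian varieties of automorphisms

The set-up is that of the starting result `MP_b4fe5e_ag.HodgeInertia`: `X` and `Y` are smooth
projective complex varieties of dimension `n`, given by their Hodge theory (`KRing`), and the
equivalence `D(X) ≃ D(Y)` by the induced isometry of cohomology (`FM`).

`AbelianSymmetry X a`: an abelian variety `A` of dimension `a` acts faithfully on `X` (more generally
`a` is the dimension of the Albanese variety of `Aut⁰(X)`).  It is described by the contractions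
with the vector fields of a basis of `Lie A` on the cohomology of `X` (antiderivations of type
`(-1, 0)`, which anticommute with each other and with their complex conjugates) and by
holomorphic one-forms which are dual to them; these exist because `A` acts on the Albanese variety of
`X` with finite kernel (Nishi, Matsumura).  By Rouquier and by Popa and Schnell
`Aut⁰(X) × Pic⁰(X) ≃ Aut⁰(Y) × Pic⁰(Y)` and `h^{1,0}(X) = h^{1,0}(Y)`, so `Y` has such a symmetry with
the same `a`.

Theorem.
1. The Hodge polynomial of `X` is divisible by `((1 + u) (1 + v))^a`, more precisely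
   `h^{p,q} = ∑ (a choose i) (a choose j) k^{p-i,q-j}` where `k^{p,q}` is the dimension of the space of
   classes of type `(p, q)` which are killed by the contractions.
2. All Hodge numbers of `X` and `Y` agree if `h^{p,q}(X) = h^{p,q}(Y)` for `p + q ≤ n - a - 3`.
3. All Hodge numbers of `X` and `Y` agree if `a ≥ n - 4` (and `h^{1,0}` agrees, as it does by the
   theorem of Popa and Schnell).
4. If `a = n - 5` then the Hodge polynomials of `X` and `Y` differ by
   `((1 + u) (1 + v))^a (1 - u v) (1 - u² v²) (A (u² + v²) + B u v)`, where `A` and `B` are the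
   differences of the numbers `h^{2,0}` and `h^{1,1}`.

So the Hodge numbers are derived invariants of the `n`-dimensional varieties on which an abelian
variety of dimension at least `n - 4` acts faithfully, for example of the varieties with numerically
trivial canonical class and irregularity at least `n - 4` and of all fivefolds on which an abelian
variety acts.  If Rouquier's isomorphism does not identify `Pic⁰(X)` and `Pic⁰(Y)`, then `a ≥ 1`
(Popa, Schnell); so for fivefolds the answer is yes in this case.

Idea: the relations of `HodgeInertia` say that the difference of the Hodge polynomials is divisible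
by `(1 - u v) (1 - u² v²)`, and this factor is prime to `((1 + u) (1 + v))^a`.
-/

open Pool.Agent.W539.DI Pool.Agent.Helper30.DI

/-- **Theorem.** -/
theorem Pool.Agent.Results.MP_b4fe5e_ag.LargeAbelianSymmetry.result {n a : ℕ} :
    (∀ X : KRing n, AbelianSymmetry X a → Factors X a) ∧
    (∀ X Y : KRing n, FM X Y → AbelianSymmetry X a → AbelianSymmetry Y a →
      (SameHodgeUpTo (n - a - 3) X Y → SameHodge X Y) ∧
      (X.h 1 0 = Y.h 1 0 → (n ≤ a + 4 → SameHodge X Y) ∧ (n = a + 5 → DifferByQuad a X Y))) := by
  refine ⟨fun X S => hodgePoly_factor S, ?_⟩
  intro X Y Φ S S'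
  refine ⟨fun h => same_of_low Φ S S' fun p q hpq => h p q (by omega),
    fun h10 => ⟨fun hn => same_of_low Φ S S' ?_, fun hn u v => codim_five hn Φ S S' h10 u v⟩⟩
  intro p q hpq
  by_cases h : p < 0 ∨ q < 0
  · rw [X.h_neg h, Y.h_neg h]
  · obtain ⟨rfl, rfl⟩ | ⟨rfl, rfl⟩ | ⟨rfl, rfl⟩ : (p = 0 ∧ q = 0) ∨ (p = 1 ∧ q = 0) ∨
        (p = 0 ∧ q = 1) := by omega
    · rw [X.h00, Y.h00]
    · exact h10
    · rw [X.h_swap, Y.h_swap, h10]
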