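import Pool.Agent.Helper13.HD.Main

/-!
# Derived invariance of Hodge numbers: one sequence of pairs decides, and a zero-one law

`V` is the class of smooth projective complex varieties, `T.h X p q` the Hodge numbers, `T.eqv` derived
equivalence and `T.prod` the product (the structure `Theory` of the library); `T.IsKnown` lists the
known properties: Künneth formula, dimensions of products, derived equivalent varieties have the same
dimension, derived equivalences `X ~ Y`, `X' ~ Y'` give `X × X' ~ Y × Y'`, and there is a curve.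

For pairs `(X_i, Y_i)` of derived equivalent varieties and exponents `m_j` let `X'_0 = X_0`,
`X'_{j+1} = X'_j ^ (m_j + 1) × X_{j+1}` (`hat T X m j`), and the same for `Y`. The pairs `(X'_j, Y'_j)` are
derived equivalent. `Grow T X Y m` is an explicit lower bound for the exponents (in terms of the Hodge
polynomials of `X'_j`, `Y'_j`, `X_{j+1}`, `Y_{j+1}` at the point `(dim X'_j + 1, dim X'_j + 1)`).

Proof. The values of the Hodge polynomials at a point `(x, y)` of natural numbers are multiplicative
positive integers. If they differ for `X'_k` and `Y'_k`, then they differ at a point with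
`x, y ≤ dim X'_k + 1`, and the choice of the exponents implies that for all `j ≥ k` the logarithms of
the values for `X'_j` and `Y'_j` at this point differ by at least `c dim X'_j` with `c > 0`.
-/

set_option autoImplicit false

open Pool.Agent.Q173.GF Pool.Agent.Helper13.HD

namespace Pool.Agent.Results.MP_b4fe5e_ag.OneSequenceDecides

universe u

/-- The Hodge numbers of `X_j` and `Y_j` are equal for infinitely many `j`. -/
def OftenEqual {V : Type u} (T : Theory V) (X Y : ℕ → V) : Prop :=
  ∀ i : ℕ, ∃ j, i ≤ j ∧ T.h (X j) = T.h (Y j)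

/-- For every `ε > 0` there are infinitely many `j` for which the Hodge numbers of `X_j` and `Y_j` agree
up to the factor `exp (ε dim X_j)` and shifts of both indices by at most `ε dim X_j`. -/
def OftenClose {V : Type u} (T : Theory V) (X Y : ℕ → V) : Prop :=
  ∀ ε : ℝ, 0 < ε → ∀ i : ℕ, ∃ j, i ≤ j ∧ ClosePair T ε (X j) (Y j)

/-- **One sequence of pairs decides the derived invariance of Hodge numbers.**

(1) There is a sequence of pairs `(X'_j, Y'_j)` of derived equivalent smooth projective varieties such
that the following are equivalent: all derived equivalent smooth projective varieties have the same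
Hodge numbers; `X'_j` and `Y'_j` have the same Hodge numbers for infinitely many `j`; for every `ε > 0`
there are infinitely many `j` such that the Hodge numbers of `X'_j` and `Y'_j` agree up to the factor
`exp (ε dim X'_j)` and shifts of the indices by `ε dim X'_j`.

(2) More precisely, let `(X_i, Y_i)` be derived equivalent pairs with `dim X_0 > 0`. There are exponents
`m` with `Grow T X Y m`, and for all these exponents the Hodge numbers of `X_i` and `Y_i` are equal for
all `i` if and only if one of the last two conditions in (1) holds for the sequence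
`X'_{j+1} = X'_j ^ (m_j + 1) × X_{j+1}`, `Y'_{j+1} = Y'_j ^ (m_j + 1) × Y_{j+1}`.

(3) Zero-one law: if the Hodge numbers of `X_i` and `Y_i` are different for one of the derived equivalent
pairs `(X_0, Y_0), …, (X_n, Y_n)`, then for every `N` the Hodge numbers of `∏ X_i ^ e_i` and
`∏ Y_i ^ e_i` are equal for at most `N ^ n` of the `N ^ (n + 1)` vectors `1 ≤ e_i ≤ N`. -/
theorem result {V : Type u} (T : Theory V) (hT : T.IsKnown) :
    (∃ X' Y' : ℕ → V, (∀ j, T.eqv (X' j) (Y' j)) ∧
      [∀ A B, T.eqv A B → T.h A = T.h B, OftenEqual T X' Y', OftenClose T X' Y'].TFAE) ∧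
    (∀ X Y : ℕ → V, 1 ≤ T.dim (X 0) → (∀ i, T.eqv (X i) (Y i)) →
      (∃ m, Grow T X Y m) ∧ ∀ m, Grow T X Y m →
        [∀ i, T.h (X i) = T.h (Y i), OftenEqual T (hat T X m) (hat T Y m),
          OftenClose T (hat T X m) (hat T Y m)].TFAE) ∧
    (∀ (n : ℕ) (X Y : Fin (n + 1) → V), (∀ i, T.eqv (X i) (Y i)) →
      (∃ i, T.h (X i) ≠ T.h (Y i)) → ∀ N : ℕ,
        Nat.card {e : Fin (n + 1) → Fin N // T.h (pr T n (fun i => pw T (X i) (e i))) =
          T.h (pr T n (fun i => pw T (Y i) (e i)))} ≤ N ^ n) := by
  have two : ∀ X Y : ℕ → V, 1 ≤ T.dim (X 0) → (∀ i, T.eqv (X i) (Y i)) → ∀ m, Grow T X Y m →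
        [∀ i, T.h (X i) = T.h (Y i), OftenEqual T (hat T X m) (hat T Y m),
          OftenClose T (hat T X m) (hat T Y m)].TFAE := by
    intro X Y h1 hXY m hg
    tfae_have 1 → 2 := by
      intro h i
      exact ⟨i, le_rfl, hat_of_factor hT m hXY h i⟩
    tfae_have 2 → 3 := by
      intro h ε hε i
      obtain ⟨j, hj, he⟩ := h i
      exact ⟨j, hj, close_of_eq hT (eqv_hat hT hXY m j) he hε⟩
    tfae_have 3 → 1 := by
      intro h
      exact main_factor hT hXY (main_hat hT h1 hg hXY h)
    tfae_finish
  refine ⟨?_, fun X Y h1 hXY => ⟨exists_grow T X Y, two X Y h1 hXY⟩, ?_⟩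
  · obtain ⟨X, Y, h1, hXY, hall⟩ := exists_enum hT
    obtain ⟨m, hm⟩ := exists_grow T X Y
    refine ⟨hat T X m, hat T Y m, eqv_hat hT hXY m, ?_⟩
    have h := two X Y h1 hXY m hm
    have h0 : (∀ A B, T.eqv A B → T.h A = T.h B) ↔ ∀ i, T.h (X i) = T.h (Y i) := by
      constructor
      · intro hA i
        exact hA _ _ (hXY i)
      · intro hi A B hAB
        obtain ⟨i, h2, h3⟩ := hall A B hAB
        rw [← h2, ← h3, hi i]
    tfae_have 1 ↔ 2 := h0.trans (h.out 0 1)
    tfae_have 1 ↔ 3 := h0.trans (h.out 0 2)
    tfae_finish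
  · intro n X Y hXY ⟨i, hi⟩ N
    exact zero_one hT N X Y hXY i hi

end Pool.Agent.Results.MP_b4fe5e_ag.OneSequenceDecides
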